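import Pool.Agent.Helper81.AD2.Goals

/-!
# Packet AD2-CAN2: the number of canonical words
-/

set_option autoImplicit false

namespace Pool.Agent.Helper41.AD2.CAN2

open Pool.Agent.Helper88.AD Pool.Agent.Helper81.AD2

variable {d : ℕ}

/-- the names of the tails, in the order of the word -/
def tl : List (Pt d) → List (Fin d)
  | [] => []
  | (i, true) :: w => i :: tl w
  | (_, false) :: w => tl w

/-- the heads in the order of the word, `none` for a head followed by its own tail -/
def hd : List (Pt d) → List (Option (Fin d))
  | [] => []
  | (_, true) :: w => hd w
  | (i, false) :: w => (if w.head? = some (i, true) then none else some i) :: hd w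

/-- the head `j` is followed by its own tail -/
def SS : List (Pt d) → Fin d → Prop
  | [], _ => False
  | (_, true) :: w, j => SS w j
  | (i, false) :: w, j => (j = i ∧ w.head? = some (i, true)) ∨ SS w j

/-- a head followed by a tail belongs to the same arrow -/
def PP : List (Pt d) → Prop
  | [] => True
  | (_, true) :: w => PP w
  | (i, false) :: w => (∀ j, w.head? = some (j, true) → j = i) ∧ PP w

theorem SS_mem (w : List (Pt d)) (j : Fin d) (h : SS w j) : (j, false) ∈ w ∧ (j, true) ∈ w := by
  induction w with
  | nil => exact h.elim
  | cons p w ih =>
    obtain ⟨i, b⟩ := p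
    cases b with
    | true =>
      have h1 := ih h
      exact ⟨List.mem_cons_of_mem _ h1.1, List.mem_cons_of_mem _ h1.2⟩
    | false =>
      rcases h with ⟨h1, h2⟩ | h1
      · subst h1
        refine ⟨List.mem_cons_self, List.mem_cons_of_mem _ ?_⟩
        exact List.mem_of_mem_head? (by rw [h2]; rfl)
      · have h1 := ih h1
        exact ⟨List.mem_cons_of_mem _ h1.1, List.mem_cons_of_mem _ h1.2⟩

theorem first_tail (w : List (Pt d)) : ∀ (i j : Fin d) (L : List (Fin d)), PP ((i, false) :: w) →
    tl ((i, false) :: w) = j :: L → SS ((i, false) :: w) j := by
  induction w with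
  | nil => intro i j L _ h; simp [tl] at h
  | cons p w ih =>
    intro i j L hP ht
    obtain ⟨i', b⟩ := p
    cases b with
    | true =>
      have h1 : i' = j := by simp only [tl, List.cons.injEq] at ht; exact ht.1
      subst h1
      have h2 : i' = i := hP.1 i' rfl
      subst h2
      exact Or.inl ⟨rfl, rfl⟩
    | false => exact Or.inr (ih i' j L hP.2 ht)

theorem inj (w : List (Pt d)) : ∀ w' : List (Pt d), w.Nodup → w'.Nodup → PP w → PP w' →
    tl w = tl w' → hd w = hd w' → (∀ j, SS w j ↔ SS w' j) → w = w' := by
  induction w with
  | nil =>
    intro w' _ _ _ _ ht hh _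
    cases w' with
    | nil => rfl
    | cons p w' =>
      obtain ⟨i, b⟩ := p
      cases b with
      | true => simp [tl] at ht
      | false => simp [hd] at hh
  | cons p w ih =>
    intro w' hn hn' hP hP' ht hh hs
    cases w' with
    | nil =>
      obtain ⟨i, b⟩ := p
      cases b with
      | true => simp [tl] at ht
      | false => simp [hd] at hh
    | cons p' w' =>
      obtain ⟨i, b⟩ := p
      obtain ⟨i', b'⟩ := p'
      rw [List.nodup_cons] at hn hn'
      cases b with
      | true =>
        cases b' with
        | true =>
          simp only [tl, List.cons.injEq] at ht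
          rw [ht.1, ih w' hn.2 hn'.2 hP hP' ht.2 hh hs]
        | false =>
          exfalso
          have h1 : SS ((i', false) :: w') i := first_tail w' i' i (tl w) hP' ht.symm
          have h2 : SS w i := (hs i).2 h1
          exact hn.1 (SS_mem _ _ h2).2
      | false =>
        cases b' with
        | true =>
          exfalso
          have h1 : SS ((i, false) :: w) i' := first_tail w i i' (tl w') hP ht
          have h2 : SS w' i' := (hs i').1 h1
          exact hn'.1 (SS_mem _ _ h2).2
        | false =>
          have hS : ∀ j, SS w j ↔ SS ((i, false) :: w) j ∧ j ≠ i := by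
            intro j
            constructor
            · intro h
              refine ⟨Or.inr h, ?_⟩
              rintro rfl
              exact hn.1 (SS_mem _ _ h).1
            · rintro ⟨⟨h1, _⟩ | h1, h2⟩
              · exact absurd h1 h2
              · exact h1
          have hS' : ∀ j, SS w' j ↔ SS ((i', false) :: w') j ∧ j ≠ i' := by
            intro j
            constructor
            · intro h
              refine ⟨Or.inr h, ?_⟩
              rintro rfl
              exact hn'.1 (SS_mem _ _ h).1
            · rintro ⟨⟨h1, _⟩ | h1, h2⟩
              · exact absurd h1 h2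
              · exact h1
          have hii : i = i' := by
            simp only [hd, List.cons.injEq] at hh
            by_cases h1 : w.head? = some (i, true)
            · by_cases h2 : w'.head? = some (i', true)
              · obtain ⟨v, rfl⟩ : ∃ v, w = (i, true) :: v := by
                  cases w with
                  | nil => simp at h1
                  | cons q v =>
                    simp only [List.head?_cons, Option.some.injEq] at h1
                    exact ⟨v, by rw [h1]⟩
                obtain ⟨v', rfl⟩ : ∃ v', w' = (i', true) :: v' := by
                  cases w' with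
                  | nil => simp at h2
                  | cons q v =>
                    simp only [List.head?_cons, Option.some.injEq] at h2
                    exact ⟨v, by rw [h2]⟩
                simp only [tl, List.cons.injEq] at ht
                exact ht.1
              · rw [if_pos h1, if_neg h2] at hh
                exact absurd hh.1 (by simp)
            · by_cases h2 : w'.head? = some (i', true)
              · rw [if_neg h1, if_pos h2] at hh
                exact absurd hh.1 (by simp)
              · rw [if_neg h1, if_neg h2] at hh
                exact Option.some.inj hh.1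
          subst hii
          have hh2 : hd w = hd w' := by
            simp only [hd, List.cons.injEq] at hh
            exact hh.2
          rw [ih w' hn.2 hn'.2 hP.2 hP'.2 ht hh2 (fun j => by rw [hS, hS', hs j])]

theorem mem_hd (w : List (Pt d)) (j : Fin d) (h : some j ∈ hd w) : (j, false) ∈ w := by
  induction w with
  | nil => simp [hd] at h
  | cons p w ih =>
    obtain ⟨i, b⟩ := p
    cases b with
    | true => exact List.mem_cons_of_mem _ (ih h)
    | false =>
      simp only [hd, List.mem_cons] at h
      rcases h with h | h
      · split_ifs at h with h1
        rw [Option.some.inj h]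
        exact List.mem_cons_self
      · exact List.mem_cons_of_mem _ (ih h)

theorem SS_iff (w : List (Pt d)) (hn : w.Nodup) (j : Fin d) (hj : (j, false) ∈ w) :
    SS w j ↔ some j ∉ hd w := by
  induction w with
  | nil => simp at hj
  | cons p w ih =>
    rw [List.nodup_cons] at hn
    obtain ⟨i, b⟩ := p
    cases b with
    | true =>
      have h1 : (j, false) ∈ w := by
        rcases List.mem_cons.1 hj with h | h
        · simp at h
        · exact h
      exact ih hn.2 h1
    | false =>
      by_cases hji : j = i
      · subst hji
        have h1 : ¬ SS w j := fun h => hn.1 (SS_mem _ _ h).1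
        have h2 : some j ∉ hd w := fun h => hn.1 (mem_hd _ _ h)
        simp only [SS, hd, List.mem_cons, not_or]
        constructor
        · rintro (h | h)
          · rw [if_pos h.2]
            exact ⟨by simp, h2⟩
          · exact absurd h h1
        · rintro ⟨h, _⟩
          left
          refine ⟨by trivial, ?_⟩
          by_contra h3
          rw [if_neg h3] at h
          exact h rfl
      · have h1 : (j, false) ∈ w := by
          rcases List.mem_cons.1 hj with h | h
          · exact absurd (congrArg Prod.fst h) hji
          · exact h
        simp only [SS, hd, List.mem_cons, not_or]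
        rw [ih hn.2 h1]
        constructor
        · rintro (h | h)
          · exact absurd h.1 hji
          · refine ⟨?_, h⟩
            split_ifs with h3
            · simp
            · intro h4
              exact hji (Option.some.inj h4)
        · rintro ⟨_, h⟩
          exact Or.inr h

theorem hd_pairwise (w : List (Pt d)) (hn : w.Nodup) :
    (hd w).Pairwise (fun a b => ∀ i, a = some i → b ≠ some i) := by
  induction w with
  | nil => exact List.Pairwise.nil
  | cons p w ih =>
    rw [List.nodup_cons] at hn
    obtain ⟨i, b⟩ := p
    cases b with
    | true => exact ih hn.2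
    | false =>
      refine List.Pairwise.cons ?_ (ih hn.2)
      intro b hb j hj hj2
      subst hj2
      split_ifs at hj with h1
      rw [← Option.some.inj hj] at hb
      exact hn.1 (mem_hd _ _ hb)

theorem mem_tl (w : List (Pt d)) (j : Fin d) : j ∈ tl w ↔ (j, true) ∈ w := by
  induction w with
  | nil => simp [tl]
  | cons p w ih =>
    obtain ⟨i, b⟩ := p
    cases b with
    | true => simp [tl, ih]
    | false => simp [tl, ih]

theorem tl_pairwise (w : List (Pt d))
    (h : w.Pairwise (fun p q => p.2 = true → q.2 = true → p.1 < q.1)) :
    (tl w).Pairwise (· < ·) := by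
  induction w with
  | nil => exact List.Pairwise.nil
  | cons p w ih =>
    rw [List.pairwise_cons] at h
    obtain ⟨i, b⟩ := p
    cases b with
    | true =>
      refine List.Pairwise.cons ?_ (ih h.2)
      intro j hj
      rw [mem_tl] at hj
      exact h.1 _ hj rfl rfl
    | false => exact ih h.2

theorem len (w : List (Pt d)) : (hd w).length + (tl w).length = w.length := by
  induction w with
  | nil => rfl
  | cons p w ih =>
    obtain ⟨i, b⟩ := p
    cases b with
    | true => simp only [hd, tl, List.length_cons]; omega
    | false => simp only [hd, tl, List.length_cons]; omega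

theorem pp_of (w : List (Pt d))
    (h : ∀ (u v : List (Pt d)) (i j : Fin d), w = u ++ (i, false) :: (j, true) :: v → i = j) :
    PP w := by
  induction w with
  | nil => trivial
  | cons p w ih =>
    have h1 : PP w := ih (fun u v i j e => h (p :: u) v i j (by rw [e]; rfl))
    obtain ⟨i, b⟩ := p
    cases b with
    | true => exact h1
    | false =>
      refine ⟨?_, h1⟩
      intro j hj
      cases w with
      | nil => simp at hj
      | cons q v =>
        simp only [List.head?_cons, Option.some.injEq] at hj
        subst hj
        exact (h [] v i j rfl).symm

theorem can_tl {w : List (Pt d)} (h : Can w) : tl w = List.finRange d := by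
  obtain ⟨h1, h2, _⟩ := h
  rw [isD_iff] at h1
  have h3 : w.Pairwise (fun p q => p.2 = true → q.2 = true → p.1 < q.1) := by
    rw [List.pairwise_iff_getElem]
    intro a b ha hb hab hpa hpb
    by_contra hlt
    rw [not_lt] at hlt
    have ea : w[a] = (w[a].1, true) := by rw [← hpa]
    have eb : w[b] = (w[b].1, true) := by rw [← hpb]
    have ia : w.idxOf (w[a].1, true) = a := by rw [← ea]; exact h1.1.idxOf_getElem a ha
    have ib : w.idxOf (w[b].1, true) = b := by rw [← eb]; exact h1.1.idxOf_getElem b hb
    rcases lt_or_eq_of_le hlt with h4 | h4
    · have h5 := h2 _ _ h4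
      rw [ia, ib] at h5
      omega
    · rw [h4, ia] at ib
      omega
  have h4 := tl_pairwise w h3
  have h5 : (tl w).Nodup := h4.imp (fun h => ne_of_lt h)
  have h6 : (tl w).Perm (List.finRange d) := by
    rw [List.perm_ext_iff_of_nodup h5 (List.nodup_finRange d)]
    intro j
    rw [mem_tl]
    simp [h1.2]
  exact h6.eq_of_pairwise (fun a b _ _ hab hba => absurd hab (not_lt_of_gt hba)) h4
    (List.pairwise_lt_finRange d)

/-- partial injections -/
abbrev PI (d : ℕ) : Type := {f : Fin d → Option (Fin d) // ∀ a b i, f a = some i → f b = some i → a = b}

theorem card_PI (d : ℕ) : Fintype.card (PI d) ≤ bd d := by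
  classical
  let F : PI d → Σ T : Finset (Fin d), (T ↪ Fin d) := fun f =>
    ⟨Finset.univ.filter (fun k => (f.1 k).isSome),
      ⟨fun k => (f.1 k).get (by have := k.2; rw [Finset.mem_filter] at this; exact this.2), by
        intro a b hab
        apply Subtype.ext
        have ha : (f.1 a).isSome := by have := a.2; rw [Finset.mem_filter] at this; exact this.2
        have hb : (f.1 b).isSome := by have := b.2; rw [Finset.mem_filter] at this; exact this.2
        apply f.2 a b ((f.1 a).get ha)
        · exact (Option.some_get ha).symm
        · have : (f.1 a).get ha = (f.1 b).get hb := hab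
          rw [this]
          exact (Option.some_get hb).symm⟩⟩
  have hF : Function.Injective F := by
    intro f g h
    apply Subtype.ext
    funext k
    have h1 : (F f).1 = (F g).1 := by rw [h]
    have h2 : ∀ (x y : Σ T : Finset (Fin d), (T ↪ Fin d)), x = y → ∀ (k : Fin d) (hx : k ∈ x.1)
        (hy : k ∈ y.1), x.2 ⟨k, hx⟩ = y.2 ⟨k, hy⟩ := by
      rintro x y rfl k hx hy
      rfl
    by_cases hk : k ∈ (F f).1
    · have hk' : k ∈ (F g).1 := by rw [← h1]; exact hk
      have h3 := h2 _ _ h k hk hk'
      have ha : (f.1 k).isSome := by
        have := hk; simp only [F, Finset.mem_filter, Finset.mem_univ, true_and] at this; exact this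
      have hb : (g.1 k).isSome := by
        have := hk'; simp only [F, Finset.mem_filter, Finset.mem_univ, true_and] at this; exact this
      have h4 : (f.1 k).get ha = (g.1 k).get hb := h3
      rw [← Option.some_get ha, ← Option.some_get hb, h4]
    · have hk' : k ∉ (F g).1 := by rw [← h1]; exact hk
      simp only [F, Finset.mem_filter, Finset.mem_univ, true_and, Option.not_isSome_iff_eq_none] at hk hk'
      rw [hk, hk']
  refine (Fintype.card_le_of_injective F hF).trans (le_of_eq ?_)
  rw [Fintype.card_sigma]
  have h1 : ∀ T : Finset (Fin d), Fintype.card (T ↪ Fin d) = T.card.factorial * d.choose T.card := by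
    intro T
    rw [Fintype.card_embedding_eq, Fintype.card_fin, Fintype.card_coe,
      Nat.descFactorial_eq_factorial_mul_choose]
  rw [Finset.sum_congr rfl (fun T _ => h1 T)]
  have h2 := Finset.sum_powerset_apply_card (x := (Finset.univ : Finset (Fin d)))
    (fun m => m.factorial * d.choose m)
  rw [Finset.powerset_univ] at h2
  rw [h2, Finset.card_univ, Fintype.card_fin, bd]
  apply Finset.sum_congr rfl
  intro k _
  rw [smul_eq_mul]
  ring

theorem t : S_CAN2 := by
  classical
  intro d
  have hlen : ∀ w : List (Pt d), Can w → (hd w).length = d := by
    intro w hw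
    have h1 := len w
    rw [can_tl hw, List.length_finRange, isD_length hw.1] at h1
    omega
  let G : {w : List (Pt d) | Can w} → PI d := fun w =>
    ⟨fun k => (hd w.1)[(k : ℕ)]'(by rw [hlen w.1 w.2]; exact k.2), by
      intro a b i ha hb
      have hp := hd_pairwise w.1 ((isD_iff w.1).1 w.2.1).1
      rw [List.pairwise_iff_getElem] at hp
      rcases lt_trichotomy a b with h | h | h
      · exact absurd hb (hp a b (by rw [hlen w.1 w.2]; exact a.2) (by rw [hlen w.1 w.2]; exact b.2)
          h i ha)
      · exact h
      · exact absurd ha (hp b a (by rw [hlen w.1 w.2]; exact b.2) (by rw [hlen w.1 w.2]; exact a.2)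
          h i hb)⟩
  have hG : Function.Injective G := by
    rintro ⟨w, hw⟩ ⟨w', hw'⟩ h
    apply Subtype.ext
    have hn := (isD_iff w).1 hw.1
    have hn' := (isD_iff w').1 hw'.1
    have hh : hd w = hd w' := by
      apply List.ext_getElem
      · rw [hlen w hw, hlen w' hw']
      · intro k hk hk'
        rw [hlen w hw] at hk
        have h1 := congrFun (congrArg Subtype.val h) ⟨k, hk⟩
        exact h1
    apply inj w w' hn.1 hn'.1 (pp_of w hw.2.2) (pp_of w' hw'.2.2)
      (by rw [can_tl hw, can_tl hw']) hh
    intro j
    rw [SS_iff w hn.1 j (hn.2 _), SS_iff w' hn'.1 j (hn'.2 _), hh]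
  have h1 : {w : List (Pt d) | Can w}.ncard = Nat.card {w : List (Pt d) | Can w} := rfl
  rw [h1]
  exact (Nat.card_le_card_of_injective G hG).trans (by rw [Nat.card_eq_fintype_card]; exact card_PI d)

end Pool.Agent.Helper41.AD2.CAN2
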